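import Pool.Agent.Run7.h335.EC8.Main

set_option autoImplicit false

/-!
# Seymour's even circuit cover question for weightings that are constant on a spanning subgraph

A circuit cover of `(G, p)` is a multiset of circuits in which every edge `e` lies in exactly `p e`
members.  Suppose that `p = c` on the edges of a spanning subgraph `H`.  An edge whose weight is larger
than `2 c` need not be in the cone of the circuits (a cut of `H` may have two edges only).  The theorem
gives covers up to this bound or close to it:

* (A) if `c` and all weights are even, `H` is 2-edge-connected, and `p ≤ 2 c - 2` (`c ≡ 2` modulo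
  four), or `p ≤ 2 c - 6` (`c ≡ 0` modulo four; up to `2 c - 4` for the weights divisible by four), or
  `p ≤ 2 c` and `c` and all weights are divisible by four;
* (B) if `H` is a spanning closed trail, the weights outside `H` are even and `p ≤ 2 c`.

Proof.  (A) For `c = 4` and weights in `{0, 4, 8}`: a nowhere-zero flow with values in the
three-dimensional space `W` over the field with two elements on the edges of weight four (8-flow
theorem), and an even set `D` with prescribed edges outside `H`, give eight even subgraphs, one for each
element of the dual space of `W`: an edge of weight four lies in four of them, and an edge outside in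
all or none, as prescribed by `D`.  Sums of such covers and of circuit double covers (starting library
`H126R2`) of subgraphs that contain `H` give all cases.  (B) is a sum of `c` covers by two even
subgraphs `U ∪ J` and `U ∪ (H \ J)`.
-/

namespace Pool.Agent.Results.MP_20b97f_co.ConstantOnSpanningSubgraph

open Finset
open Pool.Agent.H126R2.CDC (MGraph)

variable {V E : Type} [Fintype V] [DecidableEq V] [Fintype E] [DecidableEq E]

/-- The edges of `F` with an end in `B` and an end outside `B`. -/
def leaving (G : MGraph V E) (F : Finset E) (B : Finset V) : Finset E :=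
  F.filter (fun e => (∃ x ∈ G.ends e, x ∈ B) ∧ ∃ x ∈ G.ends e, x ∉ B)

/-- The graph `(V, F)` is connected. -/
def Connects (G : MGraph V E) (F : Finset E) : Prop :=
  ∀ B : Finset V, B.Nonempty → B ≠ univ → 1 ≤ (leaving G F B).card

/-- The graph `(V, F)` is 2-edge-connected. -/
def TwoEdgeConnects (G : MGraph V E) (F : Finset E) : Prop :=
  ∀ B : Finset V, B.Nonempty → B ≠ univ → 2 ≤ (leaving G F B).card

/-- The weighted graph `(G, p)` has a circuit cover. -/
def HasCircuitCover (G : MGraph V E) (p : E → ℕ) : Prop :=
  ∃ F : Multiset (Finset E), (∀ C ∈ F, G.IsCircuit C) ∧ ∀ e, F.countP (fun C => e ∈ C) = p e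

/-- All vertices have even degree in `(V, F)`. -/
def EvenSet (G : MGraph V E) (F : Finset E) : Prop := ∀ x, Even (G.deg F x)

open Pool.Agent.Run7.h335.EC8
open Pool.Agent.Helper879.ECD (F2 IsFlow cn f2_cases)

theorem leaving_card (G : MGraph V E) (v : E × Bool → V)
    (hv : ∀ e, G.ends e = s(v (e, false), v (e, true))) (F : Finset E) (B : Finset V) :
    (leaving G F B).card = cn (fun e => v (e, false)) (fun e => v (e, true)) F B := by
  unfold leaving cn
  congr 1
  apply Finset.filter_congr
  intro e _
  rw [hv e]
  simp only [Sym2.mem_iff, exists_eq_or_imp, exists_eq_left]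
  tauto

theorem con (G : MGraph V E) (v : E × Bool → V)
    (hv : ∀ e, G.ends e = s(v (e, false), v (e, true))) {F : Finset E} (h : Connects G F) :
    Con (fun e => v (e, false)) (fun e => v (e, true)) F := by
  intro B h1 h2
  have h3 := h B h1 h2
  rw [leaving_card G v hv] at h3
  unfold cn at h3
  obtain ⟨e, he⟩ := Finset.card_pos.1 h3
  rw [Finset.mem_filter] at he
  exact ⟨e, he.1, he.2⟩

/-- Let `p` be a weighting of the edges of a finite graph `G` by natural numbers and let `c` be a
natural number.

(A) Suppose that `c` and all weights are even and that `p = c` on the edges of a spanning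
2-edge-connected subgraph `H`. Then `(G, p)` has a circuit cover in each of the following cases: `c ≡ 2`
modulo four and `p ≤ 2 c - 2`; `c ≡ 0` modulo four and every edge has weight at most `2 c - 6` or a
weight divisible by four and at most `2 c - 4`; `c` and all weights are divisible by four and
`p ≤ 2 c`.

(B) If `p = c` on the edges of a spanning closed trail (a connected spanning subgraph `C` with even
degrees), and all other weights are even and at most `2 c`, then `(G, p)` has a circuit cover. -/
theorem result (V E : Type) [Fintype V] [DecidableEq V] [Fintype E] [DecidableEq E]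
    (G : MGraph V E) (p : E → ℕ) (c : ℕ) :
    (∀ H : Finset E, Even c → (∀ e, Even (p e)) → TwoEdgeConnects G H → (∀ e ∈ H, p e = c) →
      (c % 4 = 2 ∧ ∀ e, p e + 2 ≤ 2 * c) ∨
      (c % 4 = 0 ∧ ∀ e, p e + 6 ≤ 2 * c ∨ (4 ∣ p e ∧ p e + 4 ≤ 2 * c)) ∨
      (c % 4 = 0 ∧ ∀ e, 4 ∣ p e ∧ p e ≤ 2 * c) → HasCircuitCover G p) ∧
    (∀ C : Finset E, Connects G C → EvenSet G C → (∀ e ∈ C, p e = c) →
      (∀ e, e ∉ C → Even (p e) ∧ p e ≤ 2 * c) → HasCircuitCover G p) := by
  classical
  obtain ⟨v, hv⟩ := G.exists_halves
  refine ⟨?_, ?_⟩
  · intro H hc hev hH hpH h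
    have hTwo : Two (fun e => v (e, false)) (fun e => v (e, true)) H := by
      intro B h1 h2
      rw [← leaving_card G v hv]
      exact hH B h1 h2
    rcases h with ⟨h4, h⟩ | ⟨h4, h⟩ | ⟨h4, h⟩
    · obtain ⟨k, hk⟩ : ∃ k, c = 4 * k + 2 := ⟨c / 4, by omega⟩
      refine span2 G v hv H hTwo k p (fun e he => by rw [hpH e he, hk]) hev fun e => ?_
      have := h e
      omega
    · by_cases hc0 : c = 0
      · have hp0 : ∀ e, p e = 0 := by
          intro e
          have := h e
          omega
        exact ⟨0, by simp, fun e => by rw [hp0 e]; simp⟩
      obtain ⟨k, hk⟩ : ∃ k, c = 4 * k + 4 := ⟨c / 4 - 1, by omega⟩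
      refine span0 G v hv H hTwo k p (fun e he => by rw [hpH e he, hk]) hev fun e => ?_
      rcases h e with h5 | h5
      · left; omega
      · right; exact ⟨h5.1, by omega⟩
    · obtain ⟨k, hk⟩ : ∃ k, c = 4 * k := ⟨c / 4, by omega⟩
      refine span4 G v hv H hTwo k p (fun e he => by rw [hpH e he, hk]) (fun e => (h e).1)
        fun e => ?_
      have := (h e).2
      omega
  · intro C hC hCe h1 h2
    refine trail G v hv C (con G v hv hC) hCe c p h1 (fun e he => (h2 e he).1) fun e => ?_
    by_cases he : e ∈ C
    · rw [h1 e he]; omega
    · exact (h2 e he).2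

end Pool.Agent.Results.MP_20b97f_co.ConstantOnSpanningSubgraph
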