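import Pool.Agent.Run7.h315.QL.Five

set_option autoImplicit false

/-!
Seymour's even circuit cover conjecture for weightings of ratio two on five-edge-connected graphs
and on graphs with two suitable even sets, and for weightings assembled from such subgraphs and from
bridgeless subgraphs.

Let `D`, `D'` be even sets such that every nonempty cut meets `D`, meets `D'` and is not contained in
`D ∩ D'`, and let `L` be a set of edges. There is an even set `P` which agrees with `L` on
`D ∩ D'`. Let `J` be the symmetric difference of `P` and `L`. The sets `X = E \ (J \ D)` and
`Y = E \ (J ∩ D)` contain `D` and `D'`, hence each is a union of two even sets, `X = D ∪ B` and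
`Y = D' ∪ B'`. The six symmetric differences of `P` with `D`, `B`, `D + B`, `D'`, `B'`, `D' + B'`
cover the edges of `L` twice and the other edges four times.

If all nonempty cuts have at least five edges, then matroid union gives five sets of full rank in the
graph with doubled edges, two in the first copy, two in the second copy, one in both; they give `D`
and `D'`.
-/

namespace Pool.Agent.Results.MP_20b97f_co.FiveEdgeCuts

open Finset
open Pool.Agent.H126R2.CDC (MGraph)
open Run7.h315.QL (cut Rich HasCover)

/-- Let `G` be a finite graph, `S i` and `R j` two finite families of edge sets, where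

* every `S i` is rich (there are two even sets `D`, `D'` in `S i` such that every nonempty cut of the
  subgraph `S i` meets `D`, meets `D'` and is not contained in `D ∩ D'`), or all nonempty cuts of the
  subgraph `S i` have at least five edges;
* every edge of `R j` lies on a circuit contained in `R j`.

Let `w` be a weighting of the edges such that the edges of odd weight form an even set. If every
edge `e` lies in `s` of the sets `S i` and in `r` of the sets `R j` with
`2 r + 2 s ≤ w e ≤ 2 r + 4 s + 1`, then `(G, w)` has a circuit cover. -/
theorem result {V E : Type} [Fintype V] [DecidableEq V] [Fintype E] [DecidableEq E]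
    (G : MGraph V E) {ι κ : Type} [Fintype ι] [DecidableEq ι] [Fintype κ] [DecidableEq κ]
    (S : ι → Finset E) (R : κ → Finset E)
    (hS : ∀ i, Rich G (S i) ∨ ∀ X : Finset V, cut G X ∩ S i = ∅ ∨ 5 ≤ (cut G X ∩ S i).card)
    (hR : ∀ j, ∀ e ∈ R j, ∃ C, G.IsCircuit C ∧ e ∈ C ∧ C ⊆ R j)
    (w : E → ℕ) (hodd : ∀ v, Even (G.deg (univ.filter fun e => Odd (w e)) v))
    (hw : ∀ e,
      2 * (univ.filter fun j => e ∈ R j).card + 2 * (univ.filter fun i => e ∈ S i).card ≤ w e ∧
      w e ≤ 2 * (univ.filter fun j => e ∈ R j).card +
        4 * (univ.filter fun i => e ∈ S i).card + 1) :
    HasCover G w := by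
  refine Run7.h315.QL.assemble_rich G S (fun i => ?_) R hR w hodd hw
  rcases hS i with h | h
  · exact h
  · exact Run7.h315.QL.rich_of_five G (S i) h

end Pool.Agent.Results.MP_20b97f_co.FiveEdgeCuts
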