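import Pool.Agent.Run7.h949.EX.Final

set_option autoImplicit false
set_option linter.unusedSectionVars false

/-!
# Seymour's even circuit cover question when the heaviest edges connect all vertices

Let `k ≥ 2` and let `p` be a weighting of the edges of a graph by even numbers between `2 a` and
`2 h`, where `h ≤ k a` (the ratio is at most `k`); odd weights up to `2 h + 1` are allowed if the
edges of odd weight form an even set.  There is a circuit cover if

1. the heaviest edges (weight `2 h`, `2 h + 1`) connect all vertices and every partition of the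
   vertices into `n ≥ 2` classes has at least `k (n - 1) + 1` edges between the classes; or
2. the heaviest edges connect all vertices and the graph is `2 k`-edge-connected; or
3. the edges of weight at most `2 (h - a) + 1` contain `k` disjoint connected spanning subgraphs; or
4. (common generalisation) the vertices are partitioned into classes such that 1. holds inside the
   classes and 3. holds between the classes.

Proof.  `q = p / 2` is the sum of the weights `(q + i) / a`, `i < a`, so that `a = 1`, `h ≤ k`.  There
are disjoint sets `P 1, …, P k` of edges with `q < k` such that every edge `z` outside `P j` is on a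
circuit inside `P j + z +` (edges with `q = k`): inside the classes they are the colour classes of a
`k`-colouring of a hypergraph whose edges are the cuts with exactly one heavy edge; such a colouring
with all colours in every cut exists since the union of every family of `s` cuts has at least
`(k - 1) s + 1` elements (Hall and a greedy argument).  Now write `q` as the sum of `k` layers `R j`
containing `P j`, where the edges of `P j`, `j ≥ 2`, avoid the layer 1, and those of `P 1` the layer 2.
The bridges of `R j` lie in `P j`; for `j ≥ 3` they are moved to the first layer.  An exchange lemma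
makes the first two layers bridgeless.  Every layer has a circuit double cover (starting library
`H126R2`).
-/

namespace Pool.Agent.Results.MP_20b97f_co.HeaviestEdgesConnect

open Finset
open Pool.Agent.H126R2.CDC (MGraph)

variable {V E : Type} [Fintype V] [DecidableEq V] [Fintype E] [DecidableEq E]

/-- The edges of `F` with an end in `X` and an end outside `X`. -/
def leaving (G : MGraph V E) (F : Finset E) (X : Finset V) : Finset E :=
  F.filter (fun e => (∃ x ∈ G.ends e, x ∈ X) ∧ ∃ x ∈ G.ends e, x ∉ X)

/-- The graph `(V, F)` is connected. -/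
def Connects (G : MGraph V E) (F : Finset E) : Prop :=
  ∀ X : Finset V, X.Nonempty → X ≠ univ → (leaving G F X).Nonempty

/-- All vertices have even degree in `(V, F)`. -/
def EvenSet (G : MGraph V E) (F : Finset E) : Prop := ∀ x, Even (G.deg F x)

/-- The weighted graph `(G, p)` has a circuit cover. -/
def HasCircuitCover (G : MGraph V E) (p : E → ℕ) : Prop :=
  ∃ F : Multiset (Finset E), (∀ C ∈ F, G.IsCircuit C) ∧ ∀ e, F.countP (fun C => e ∈ C) = p e

/-- The edges between different classes of the partition of the vertices given by `c`. -/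
def between (G : MGraph V E) {n : ℕ} (c : V → Fin n) : Finset E :=
  univ.filter (fun e => ∃ x ∈ G.ends e, ∃ y ∈ G.ends e, c x ≠ c y)

/-- The edges inside the classes of the partition of the vertices given by `κ`. -/
def inside (G : MGraph V E) {r : ℕ} (κ : V → Fin r) : Finset E :=
  univ.filter (fun e => ∀ x ∈ G.ends e, ∀ y ∈ G.ends e, κ x = κ y)

/-- The heaviest edges: weight `2 h` or `2 h + 1`. -/
def heaviest (p : E → ℕ) (h : ℕ) : Finset E := univ.filter (fun e => p e / 2 = h)

/-- The edges of weight at most `2 (h - a) + 1`. -/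
def lighter (p : E → ℕ) (h a : ℕ) : Finset E := univ.filter (fun e => p e / 2 + a ≤ h)

open Run7.h949.EX (Cov ClassCon OuterCon crossIn mem_crossIn mem_cut)
open Pool.Agent.TH300.FC (cut)

theorem mem_leaving (G : MGraph V E) (F : Finset E) (X : Finset V) (e : E) :
    e ∈ leaving G F X ↔ e ∈ F ∧ e ∈ cut G X := by
  unfold leaving
  rw [Finset.mem_filter, mem_cut]
  constructor
  · rintro ⟨h1, ⟨x, h2, h3⟩, ⟨y, h4, h5⟩⟩
    exact ⟨h1, ⟨x, h3, h2⟩, ⟨y, h5, h4⟩⟩
  · rintro ⟨h1, ⟨x, h2, h3⟩, ⟨y, h4, h5⟩⟩
    exact ⟨h1, ⟨x, h3, h2⟩, ⟨y, h5, h4⟩⟩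

theorem mem_inside (G : MGraph V E) {r : ℕ} (κ : V → Fin r) (e : E) :
    e ∈ inside G κ ↔ Run7.h949.EX.inner G κ e := by
  unfold inside Run7.h949.EX.inner
  simp only [Finset.mem_filter, Finset.mem_univ, true_and]

theorem mem_between (G : MGraph V E) {n : ℕ} (c : V → Fin n) (e : E) :
    e ∈ between G c ↔ ∃ x ∈ G.ends e, ∃ y ∈ G.ends e, c x ≠ c y := by
  unfold between
  simp only [Finset.mem_filter, Finset.mem_univ, true_and]

/-- part 4 -/
theorem mixed (G : MGraph V E) (k a h : ℕ) (hk : 2 ≤ k) (ha : 1 ≤ a) (hka : h ≤ k * a)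
    (p : E → ℕ) (hodd : EvenSet G (univ.filter (fun e => ¬ Even (p e))))
    (hp : ∀ e, a ≤ p e / 2 ∧ p e / 2 ≤ h) (r : ℕ) (κ : V → Fin r)
    (hκ : Function.Surjective κ)
    (h1 : ∀ X : Finset V, ∀ x ∈ X, ∀ y, y ∉ X → κ x = κ y →
      (leaving G (heaviest p h ∩ inside G κ) X).Nonempty)
    (h2 : ∃ T : Fin k → Finset E, (∀ i j, i ≠ j → Disjoint (T i) (T j)) ∧
      (∀ j, T j ⊆ lighter p h a) ∧
      ∀ j, ∀ X : Finset V, X.Nonempty → X ≠ univ → (∀ x y, κ x = κ y → (x ∈ X ↔ y ∈ X)) →
        (leaving G (T j) X).Nonempty)
    (h3 : ∀ (n : ℕ) (c : V → Fin n), Function.Surjective c →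
      (∀ x y, c x = c y → κ x = κ y) → r < n →
        k * (n - r) + 1 ≤ (between G c ∩ inside G κ).card) :
    HasCircuitCover G p := by
  classical
  obtain ⟨T, hT1, hT2, hT3⟩ := h2
  let T' : ℕ → Finset E := fun j => if hj : j < k then T ⟨j, hj⟩ else ∅
  have hT' : ∀ (j : ℕ) (hj : j < k), T' j = T ⟨j, hj⟩ := by
    intro j hj
    simp only [T']
    rw [dif_pos hj]
  refine Run7.h949.EX.main G k a h r hk ha hka p hodd (fun e => (hp e).1) (fun e => (hp e).2)
    κ hκ ?_ T' ?_ ?_ ?_ ?_
  · intro X x hx y hy hxy
    obtain ⟨e, he⟩ := h1 X x hx y hy hxy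
    rw [mem_leaving, Finset.mem_inter, mem_inside] at he
    exact ⟨e, he.1.1, he.1.2, he.2⟩
  · intro i hi j hj hij
    rw [hT' i hi, hT' j hj]
    exact hT1 _ _ (fun h => hij (Fin.ext_iff.1 h))
  · intro j hj e he
    rw [hT' j hj] at he
    exact (Finset.mem_filter.1 (hT2 _ he)).2
  · intro j hj X hX1 hX2 hX3
    rw [hT' j hj]
    obtain ⟨e, he⟩ := hT3 ⟨j, hj⟩ X hX1 hX2 hX3
    rw [mem_leaving] at he
    exact ⟨e, he.1, he.2⟩
  · intro n c hc1 hc2 hn
    refine le_trans (h3 n c hc1 hc2 hn) (Finset.card_le_card ?_)
    intro e he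
    rw [Finset.mem_inter, mem_between, mem_inside] at he
    rw [mem_crossIn]
    exact ⟨he.2, he.1⟩

/-- part 1 -/
theorem connected (G : MGraph V E) (k a h : ℕ) (hk : 2 ≤ k) (ha : 1 ≤ a) (hka : h ≤ k * a)
    (p : E → ℕ) (hodd : EvenSet G (univ.filter (fun e => ¬ Even (p e))))
    (hp : ∀ e, a ≤ p e / 2 ∧ p e / 2 ≤ h) (hH : Connects G (heaviest p h))
    (hpart : ∀ (n : ℕ) (c : V → Fin n), Function.Surjective c → 2 ≤ n →
      k * (n - 1) + 1 ≤ (between G c).card) :
    HasCircuitCover G p := by
  classical
  rcases isEmpty_or_nonempty V with hV | hV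
  · refine ⟨0, by simp, fun e => ?_⟩
    exfalso
    induction G.ends e using Sym2.ind with
    | _ x y => exact hV.false x
  · have hin : ∀ e, e ∈ inside G (fun _ : V => (0 : Fin 1)) := by
      intro e
      rw [mem_inside]
      exact fun _ _ _ _ => rfl
    apply mixed G k a h hk ha hka p hodd hp 1 (fun _ => 0)
    · intro b
      obtain ⟨v⟩ := hV
      exact ⟨v, (Subsingleton.elim _ _)⟩
    · intro X x hx y hy _
      obtain ⟨e, he⟩ := hH X ⟨x, hx⟩ (fun h => hy (by rw [h]; exact Finset.mem_univ _))
      rw [mem_leaving] at he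
      refine ⟨e, ?_⟩
      rw [mem_leaving, Finset.mem_inter]
      exact ⟨⟨he.1, hin e⟩, he.2⟩
    · refine ⟨fun _ => ∅, fun _ _ _ => Finset.disjoint_empty_left _,
        fun _ => Finset.empty_subset _, ?_⟩
      intro _ X hX1 hX2 hX3
      exfalso
      apply hX2
      obtain ⟨x, hx⟩ := hX1
      exact Finset.eq_univ_of_forall (fun y => (hX3 x y rfl).1 hx)
    · intro n c hc1 _ hn
      refine le_trans (hpart n c hc1 (by omega)) (Finset.card_le_card ?_)
      intro e he
      exact Finset.mem_inter.2 ⟨he, hin e⟩

/-- a `2 k`-edge-connected graph satisfies the partition condition -/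
theorem part_of_cuts (G : MGraph V E) (k : ℕ) (hk : 2 ≤ k)
    (hcut : ∀ X : Finset V, X.Nonempty → X ≠ univ → 2 * k ≤ (leaving G univ X).card)
    (n : ℕ) (c : V → Fin n) (hc : Function.Surjective c) (hn : 2 ≤ n) :
    k * (n - 1) + 1 ≤ (between G c).card := by
  classical
  have h1 : ∀ a : Fin n, 2 * k ≤ (leaving G univ (univ.filter (fun v => c v = a))).card := by
    intro a
    apply hcut
    · obtain ⟨v, hv⟩ := hc a
      exact ⟨v, by simp [hv]⟩
    · intro h
      obtain ⟨b, hb⟩ : ∃ b : Fin n, b ≠ a := by
        have : Nontrivial (Fin n) := Fin.nontrivial_iff_two_le.2 hn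
        exact exists_ne a
      obtain ⟨v, hv⟩ := hc b
      have h2 : v ∈ univ.filter (fun v => c v = a) := by rw [h]; exact Finset.mem_univ _
      rw [Finset.mem_filter, hv] at h2
      exact hb h2.2
  have h2 : ∑ a : Fin n, (leaving G univ (univ.filter (fun v => c v = a))).card ≤
      2 * (between G c).card := by
    have h3 : ∀ a : Fin n, (leaving G univ (univ.filter (fun v => c v = a))).card =
        ∑ e ∈ between G c,
          if e ∈ leaving G univ (univ.filter (fun v => c v = a)) then 1 else 0 := by
      intro a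
      rw [← Finset.sum_filter, ← Finset.card_eq_sum_ones]
      congr 1
      ext e
      rw [Finset.mem_filter]
      constructor
      · intro he
        refine ⟨?_, he⟩
        obtain ⟨⟨x, hxe, hx⟩, ⟨y, hye, hy⟩⟩ := (Finset.mem_filter.1 he).2
        rw [Finset.mem_filter] at hx hy
        rw [mem_between]
        refine ⟨x, hxe, y, hye, ?_⟩
        rw [hx.2]
        intro h
        exact hy ⟨Finset.mem_univ _, h.symm⟩
      · exact fun h => h.2
    rw [Finset.sum_congr rfl (fun a _ => h3 a), Finset.sum_comm, mul_comm, ← smul_eq_mul,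
      ← Finset.sum_const]
    apply Finset.sum_le_sum
    intro e _
    rw [← Finset.sum_filter, ← Finset.card_eq_sum_ones]
    obtain ⟨v, hv⟩ := G.exists_halves
    calc (univ.filter (fun a : Fin n =>
          e ∈ leaving G univ (univ.filter (fun v => c v = a)))).card
        ≤ ({c (v (e, false)), c (v (e, true))} : Finset (Fin n)).card := by
          apply Finset.card_le_card
          intro a ha
          have h4 := (Finset.mem_filter.1 ha).2
          obtain ⟨⟨x, hxe, hx⟩, _⟩ := (Finset.mem_filter.1 h4).2
          rw [Finset.mem_filter] at hx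
          rw [hv e, Sym2.mem_iff] at hxe
          rw [Finset.mem_insert, Finset.mem_singleton, ← hx.2]
          rcases hxe with h5 | h5
          · left; rw [h5]
          · right; rw [h5]
      _ ≤ 2 := Finset.card_le_two
  have h4 : ∑ a : Fin n, (2 * k) ≤
      ∑ a : Fin n, (leaving G univ (univ.filter (fun v => c v = a))).card :=
    Finset.sum_le_sum (fun a _ => h1 a)
  rw [Finset.sum_const, Finset.card_univ, Fintype.card_fin, smul_eq_mul] at h4
  obtain ⟨n', rfl⟩ : ∃ n', n = n' + 2 := ⟨n - 2, by omega⟩
  have h5 : (n' + 2) * (2 * k) = 2 * (k * (n' + 2 - 1)) + 2 * k := by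
    have : n' + 2 - 1 = n' + 1 := by omega
    rw [this]; ring
  omega

/-- part 3 -/
theorem spanning (G : MGraph V E) (k a h : ℕ) (hk : 2 ≤ k) (ha : 1 ≤ a) (hka : h ≤ k * a)
    (p : E → ℕ) (hodd : EvenSet G (univ.filter (fun e => ¬ Even (p e))))
    (hp : ∀ e, a ≤ p e / 2 ∧ p e / 2 ≤ h)
    (hT : ∃ T : Fin k → Finset E, (∀ i j, i ≠ j → Disjoint (T i) (T j)) ∧
      ∀ j, T j ⊆ lighter p h a ∧ Connects G (T j)) :
    HasCircuitCover G p := by
  classical
  obtain ⟨T, hT1, hT2⟩ := hT
  apply mixed G k a h hk ha hka p hodd hp (Fintype.card V) (Fintype.equivFin V)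
  · exact (Fintype.equivFin V).surjective
  · intro X x hx y hy hxy
    have := (Fintype.equivFin V).injective hxy
    subst this
    exact absurd hx hy
  · exact ⟨T, hT1, fun j => (hT2 j).1, fun j X h1 h2 _ => (hT2 j).2 X h1 h2⟩
  · intro n c hc _ hn
    exfalso
    have := Fintype.card_le_of_surjective c hc
    rw [Fintype.card_fin] at this
    omega

/-- Let `k ≥ 2`, `h ≤ k a`, and let `p` be a weighting with values between `2 a` and `2 h + 1` whose
edges of odd weight form an even set (for instance all weights even).  Then `(G, p)` has a circuit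
cover in each of the following cases.

1. The heaviest edges connect all vertices, and every partition of the vertices into `n ≥ 2` classes
   has at least `k (n - 1) + 1` edges between the classes.
2. The heaviest edges connect all vertices, and `G` is `2 k`-edge-connected.
3. The edges of weight at most `2 (h - a) + 1` contain `k` disjoint connected spanning subgraphs.
4. There is a partition of the vertices into `r` classes such that the heaviest edges inside the
   classes connect every class, `k` disjoint sets of edges of weight at most `2 (h - a) + 1` connect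
   the classes, and every refinement of the partition into `n > r` classes has at least
   `k (n - r) + 1` edges which are inside the old and between the new classes. -/
theorem result {V E : Type} [Fintype V] [DecidableEq V] [Fintype E] [DecidableEq E]
    (G : MGraph V E) (k a h : ℕ) (hk : 2 ≤ k) (ha : 1 ≤ a) (hka : h ≤ k * a)
    (p : E → ℕ) (hodd : EvenSet G (univ.filter (fun e => ¬ Even (p e))))
    (hp : ∀ e, a ≤ p e / 2 ∧ p e / 2 ≤ h) :
    ((Connects G (heaviest p h) ∧
        ∀ (n : ℕ) (c : V → Fin n), Function.Surjective c → 2 ≤ n →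
          k * (n - 1) + 1 ≤ (between G c).card) → HasCircuitCover G p) ∧
    ((Connects G (heaviest p h) ∧
        ∀ X : Finset V, X.Nonempty → X ≠ univ → 2 * k ≤ (leaving G univ X).card) →
      HasCircuitCover G p) ∧
    ((∃ T : Fin k → Finset E, (∀ i j, i ≠ j → Disjoint (T i) (T j)) ∧
        ∀ j, T j ⊆ lighter p h a ∧ Connects G (T j)) → HasCircuitCover G p) ∧
    ∀ (r : ℕ) (κ : V → Fin r), Function.Surjective κ →
      (∀ X : Finset V, ∀ x ∈ X, ∀ y, y ∉ X → κ x = κ y →
        (leaving G (heaviest p h ∩ inside G κ) X).Nonempty) →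
      (∃ T : Fin k → Finset E, (∀ i j, i ≠ j → Disjoint (T i) (T j)) ∧
        (∀ j, T j ⊆ lighter p h a) ∧
        ∀ j, ∀ X : Finset V, X.Nonempty → X ≠ univ → (∀ x y, κ x = κ y → (x ∈ X ↔ y ∈ X)) →
          (leaving G (T j) X).Nonempty) →
      (∀ (n : ℕ) (c : V → Fin n), Function.Surjective c →
        (∀ x y, c x = c y → κ x = κ y) → r < n →
          k * (n - r) + 1 ≤ (between G c ∩ inside G κ).card) →
      HasCircuitCover G p := by
  refine ⟨?_, ?_, ?_, ?_⟩
  · rintro ⟨h1, h2⟩
    exact connected G k a h hk ha hka p hodd hp h1 h2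
  · rintro ⟨h1, h2⟩
    exact connected G k a h hk ha hka p hodd hp h1 (part_of_cuts G k hk h2)
  · intro h1
    exact spanning G k a h hk ha hka p hodd hp h1
  · intro r κ hκ h1 h2 h3
    exact mixed G k a h hk ha hka p hodd hp r κ hκ h1 h2 h3

end Pool.Agent.Results.MP_20b97f_co.HeaviestEdgesConnect
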