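import Pool.Agent.Run7.h335.EC8.Main

set_option autoImplicit false

/-!
# Seymour's even circuit cover question: constant weight on a connected spanning subgraph

A circuit cover of `(G, p)` is a multiset of circuits in which every edge `e` lies in exactly `p e`
members.  Here `p` and `c` are even and the edges of weight `c` form a connected spanning subgraph (for
instance a spanning tree); the weights are at most `2 c` (`2 c - 2` if `c ≡ 2` modulo four).  There is a
circuit cover if the edges with weight between `c / 2` and `3 c / 2` contain three edge-disjoint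
spanning trees, for instance if all weights are `2`, `4` or `6`, the edges of weight `4` connect all
vertices, and `G` has three edge-disjoint spanning trees.  More generally (part (2)), it is enough
that there are two even subgraphs in this interval whose union and whose complements connect the graph.

Proof.  The even subsets of a set with eight elements modulo complements are the six-dimensional space
over the field with two elements, and half the size modulo two is a hyperbolic quadratic form `q`.  So
eight even subgraphs are a flow `X = (α, β)` with values in this space together with one more even set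
`D`; an edge lies in four of the eight subgraphs if `q(X e) = ⟨α e, β e⟩ = 0` and `X e ≠ 0`, in two or
six if `q(X e) = 1`, and in none or all if `X e = 0`.  As the edges of the first kind connect the graph,
the set `D` can be chosen such that the choice between two and six, and between none and eight, is
prescribed.  Here `α` consists of `C 1`, `C 2` and an even set containing all other edges whose weight
is not zero or eight, and `β` is found from `α` by `q(X) = 1` exactly for the edges of weight two or
six: as the complement of `C i` is connected, the set `C i ∩ β i` is arbitrary.  This is the case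
`c = 4`; the general case is a sum of such covers and a circuit double cover (starting library
`H126R2`).
-/

namespace Pool.Agent.Results.MP_20b97f_co.ThreeSpanningTrees

open Finset
open Pool.Agent.H126R2.CDC (MGraph)

variable {V E : Type} [Fintype V] [DecidableEq V] [Fintype E] [DecidableEq E]

/-- The edges of `F` with an end in `B` and an end outside `B`. -/
def leaving (G : MGraph V E) (F : Finset E) (B : Finset V) : Finset E :=
  F.filter (fun e => (∃ x ∈ G.ends e, x ∈ B) ∧ ∃ x ∈ G.ends e, x ∉ B)

/-- The graph `(V, F)` is connected. -/
def Connects (G : MGraph V E) (F : Finset E) : Prop :=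
  ∀ B : Finset V, B.Nonempty → B ≠ univ → 1 ≤ (leaving G F B).card

/-- The graph `(V, F)` is 2-edge-connected. -/
def TwoEdgeConnects (G : MGraph V E) (F : Finset E) : Prop :=
  ∀ B : Finset V, B.Nonempty → B ≠ univ → 2 ≤ (leaving G F B).card

/-- The weighted graph `(G, p)` has a circuit cover. -/
def HasCircuitCover (G : MGraph V E) (p : E → ℕ) : Prop :=
  ∃ F : Multiset (Finset E), (∀ C ∈ F, G.IsCircuit C) ∧ ∀ e, F.countP (fun C => e ∈ C) = p e

/-- All vertices have even degree in `(V, F)`. -/
def EvenSet (G : MGraph V E) (F : Finset E) : Prop := ∀ x, Even (G.deg F x)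

/-- The edges whose weight is between `c / 2` and `3 c / 2` (if `c` is divisible by four), or between
`c / 2 + 1` and `3 c / 2 - 1` (if `c` is even and not divisible by four). -/
def middle (p : E → ℕ) (c : ℕ) : Finset E :=
  univ.filter (fun e => c + c % 4 ≤ 2 * p e ∧ 2 * p e + c % 4 ≤ 3 * c)

open Pool.Agent.Run7.h335.EC8
open Pool.Agent.Helper879.ECD (F2 IsFlow cn f2_cases)

theorem leaving_card (G : MGraph V E) (v : E × Bool → V)
    (hv : ∀ e, G.ends e = s(v (e, false), v (e, true))) (F : Finset E) (B : Finset V) :
    (leaving G F B).card = cn (fun e => v (e, false)) (fun e => v (e, true)) F B := by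
  unfold leaving cn
  congr 1
  apply Finset.filter_congr
  intro e _
  rw [hv e]
  simp only [Sym2.mem_iff, exists_eq_or_imp, exists_eq_left]
  tauto

theorem con (G : MGraph V E) (v : E × Bool → V)
    (hv : ∀ e, G.ends e = s(v (e, false), v (e, true))) {F : Finset E} (h : Connects G F) :
    Con (fun e => v (e, false)) (fun e => v (e, true)) F := by
  intro B h1 h2
  have h3 := h B h1 h2
  rw [leaving_card G v hv] at h3
  unfold cn at h3
  obtain ⟨e, he⟩ := Finset.card_pos.1 h3
  rw [Finset.mem_filter] at he
  exact ⟨e, he.1, he.2⟩

theorem flow_of_even (G : MGraph V E) (v : E × Bool → V)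
    (hv : ∀ e, G.ends e = s(v (e, false), v (e, true))) {F : Finset E} (h : EvenSet G F) :
    IsFlow (fun e => v (e, false)) (fun e => v (e, true)) (fun e => if e ∈ F then (1 : F2) else 0) := by
  have := (G.isEven_iff v hv F).1 h
  rwa [Pool.Agent.H126R2.CDC.isFl_iff] at this

/-- part (2) for flows -/
theorem cover_flows (G : MGraph V E) (v : E × Bool → V)
    (hv : ∀ e, G.ends e = s(v (e, false), v (e, true))) (p : E → ℕ) (c : ℕ) (hc : Even c)
    (hev : ∀ e, Even (p e)) (hle : ∀ e, p e + c % 4 ≤ 2 * c) (C1 C2 : E → F2)
    (c1 : IsFlow (fun e => v (e, false)) (fun e => v (e, true)) C1)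
    (c2 : IsFlow (fun e => v (e, false)) (fun e => v (e, true)) C2)
    (s1 : ∀ e, C1 e = 1 → e ∈ middle p c) (s2 : ∀ e, C2 e = 1 → e ∈ middle p c)
    (m1 : Con (fun e => v (e, false)) (fun e => v (e, true)) ((middle p c).filter fun e => C1 e = 0))
    (m2 : Con (fun e => v (e, false)) (fun e => v (e, true)) ((middle p c).filter fun e => C2 e = 0))
    (m : Con (fun e => v (e, false)) (fun e => v (e, true))
      (univ.filter fun e => C1 e = 1 ∨ C2 e = 1))
    (hK : Con (fun e => v (e, false)) (fun e => v (e, true)) (univ.filter fun e => p e = c)) :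
    HasCircuitCover G p := by
  classical
  have hmem : ∀ e, e ∈ middle p c ↔ c + c % 4 ≤ 2 * p e ∧ 2 * p e + c % 4 ≤ 3 * c := by
    intro e
    simp only [middle, Finset.mem_filter, Finset.mem_univ, true_and]
  obtain ⟨t, ht⟩ := hc
  by_cases h4 : c % 4 = 0
  · obtain ⟨k, hk⟩ : ∃ k, c = 4 * k := ⟨c / 4, by omega⟩
    refine flows0 G v hv C1 C2 c1 c2 _ _ _ _ m1 m2 m hK k p ?_ ?_ ?_ ?_ ?_ ?_ hev ?_
    · intro e he
      rw [Finset.mem_filter] at he
      omega
    · intro e he
      have := (hmem e).1 (s1 e he)
      omega
    · intro e he
      have := (hmem e).1 (s2 e he)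
      omega
    · intro e he
      rw [Finset.mem_filter] at he
      have := (hmem e).1 he.1
      refine ⟨he.2, ?_⟩
      omega
    · intro e he
      rw [Finset.mem_filter] at he
      have := (hmem e).1 he.1
      refine ⟨he.2, ?_⟩
      omega
    · intro e he
      rw [Finset.mem_filter] at he
      exact he.2
    · intro e
      have := hle e
      omega
  · obtain ⟨k, hk⟩ : ∃ k, c = 4 * k + 2 := ⟨c / 4, by omega⟩
    refine flows2 G v hv C1 C2 c1 c2 _ _ _ _ m1 m2 m hK k p ?_ ?_ ?_ ?_ ?_ ?_ hev ?_
    · intro e he
      rw [Finset.mem_filter] at he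
      omega
    · intro e he
      have := (hmem e).1 (s1 e he)
      omega
    · intro e he
      have := (hmem e).1 (s2 e he)
      omega
    · intro e he
      rw [Finset.mem_filter] at he
      have := (hmem e).1 he.1
      refine ⟨he.2, ?_⟩
      omega
    · intro e he
      rw [Finset.mem_filter] at he
      have := (hmem e).1 he.1
      refine ⟨he.2, ?_⟩
      omega
    · intro e he
      rw [Finset.mem_filter] at he
      exact he.2
    · intro e
      have := hle e
      omega

/-- Let `p` be a weighting of the edges of a finite graph `G` by even natural numbers and let `c` be an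
even number, such that the edges of weight `c` connect all vertices and `p ≤ 2 c` (`p ≤ 2 c - 2` if `c`
is not divisible by four).

(1) Suppose that the edges with weight between `c / 2` and `3 c / 2` (`c / 2 + 1` and `3 c / 2 - 1` if
`c` is not divisible by four) contain three disjoint sets each of which connects all vertices. Then
`(G, p)` has a circuit cover.

(2) Suppose that there are two sets of edges `C1`, `C2` with weights in the same interval such that all
degrees are even in `C1` and in `C2` and such that `C1 ∪ C2` connects all vertices, and so do the edges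
outside of `C1` with weights in the interval, and the edges outside of `C2` with weights in the
interval. Then `(G, p)` has a circuit cover. -/
theorem result (V E : Type) [Fintype V] [DecidableEq V] [Fintype E] [DecidableEq E]
    (G : MGraph V E) (p : E → ℕ) (c : ℕ) (hc : Even c) (hev : ∀ e, Even (p e))
    (hK : Connects G (univ.filter fun e => p e = c)) (hle : ∀ e, p e + c % 4 ≤ 2 * c) :
    ((∃ T1 T2 T3 : Finset E, Disjoint T1 T2 ∧ Disjoint T1 T3 ∧ Disjoint T2 T3 ∧
      T1 ⊆ middle p c ∧ T2 ⊆ middle p c ∧ T3 ⊆ middle p c ∧
      Connects G T1 ∧ Connects G T2 ∧ Connects G T3) → HasCircuitCover G p) ∧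
    ((∃ C1 C2 : Finset E, C1 ⊆ middle p c ∧ C2 ⊆ middle p c ∧ EvenSet G C1 ∧ EvenSet G C2 ∧
      Connects G (middle p c \ C1) ∧ Connects G (middle p c \ C2) ∧ Connects G (C1 ∪ C2)) →
      HasCircuitCover G p) := by
  classical
  obtain ⟨v, hv⟩ := G.exists_halves
  refine ⟨?_, ?_⟩
  · rintro ⟨T1, T2, T3, h12, h13, h23, s1, s2, s3, t1, t2, t3⟩
    obtain ⟨C1, C2, c1, c2, k1, k2, k3, k4, k5⟩ := flows_of_trees _ _ (middle p c) T1 T2 T3 h12 h13
      h23 (con G v hv t1) (con G v hv t2) (con G v hv t3) s1 s2 s3
    exact cover_flows G v hv p c hc hev hle C1 C2 c1 c2 k1 k2 k3 k4 k5 (con G v hv hK)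
  · rintro ⟨C1, C2, s1, s2, e1, e2, m1, m2, m⟩
    have one0 : (1 : F2) ≠ 0 := one_ne_zero
    have hi : ∀ (C : Finset E) (e : E), (if e ∈ C then (1 : F2) else 0) = 1 ↔ e ∈ C := by
      intro C e
      by_cases h : e ∈ C
      · simp [h]
      · simp [h]
    have hi0 : ∀ (C : Finset E) (e : E), (if e ∈ C then (1 : F2) else 0) = 0 ↔ e ∉ C := by
      intro C e
      by_cases h : e ∈ C
      · simp [h]
      · simp [h]
    refine cover_flows G v hv p c hc hev hle (fun e => if e ∈ C1 then 1 else 0)
      (fun e => if e ∈ C2 then 1 else 0) (flow_of_even G v hv e1) (flow_of_even G v hv e2)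
      (fun e he => s1 ((hi C1 e).1 he)) (fun e he => s2 ((hi C2 e).1 he))
      ((con G v hv m1).mono fun e he => ?_) ((con G v hv m2).mono fun e he => ?_)
      ((con G v hv m).mono fun e he => ?_) (con G v hv hK)
    · rw [Finset.mem_sdiff] at he
      rw [Finset.mem_filter]
      exact ⟨he.1, (hi0 C1 e).2 he.2⟩
    · rw [Finset.mem_sdiff] at he
      rw [Finset.mem_filter]
      exact ⟨he.1, (hi0 C2 e).2 he.2⟩
    · rw [Finset.mem_union] at he
      rw [Finset.mem_filter]
      exact ⟨Finset.mem_univ _, he.imp (hi C1 e).2 (hi C2 e).2⟩

end Pool.Agent.Results.MP_20b97f_co.ThreeSpanningTrees
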